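import Mathlib

set_option autoImplicit false

namespace Pool.Agent.W651.HI

open Set Topology Metric

/-- SIZE: a Whitney-type size function on the subsets of a compact metric space. -/
def S_SIZE : Prop := ∀ (L : Type) [MetricSpace L] [CompactSpace L],
  ∃ μ : Set L → ℝ,
    (∀ A B : Set L, A ⊆ B → μ A ≤ μ B) ∧
    (∀ A B : Set L, IsClosed A → A.Nonempty → A ⊂ B → μ A < μ B) ∧
    (∀ ε : ℝ, 0 < ε → ∃ δ : ℝ, 0 < δ ∧ ∀ A B : Set L, A ⊆ thickening δ B → μ A ≤ μ B + ε) ∧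
    (∀ x : L, μ {x} = 0)

/-- LIM: a sequence of continua in a compact metric space has a subsequence converging (in the
Hausdorff sense) to a continuum. -/
def S_LIM : Prop := ∀ (L : Type) [MetricSpace L] [CompactSpace L] (A : ℕ → Set L),
  (∀ n, IsClosed (A n)) → (∀ n, (A n).Nonempty) → (∀ n, IsPreconnected (A n)) →
  ∃ (φ : ℕ → ℕ) (B : Set L), StrictMono φ ∧ IsClosed B ∧ B.Nonempty ∧ IsPreconnected B ∧
    ∀ δ : ℝ, 0 < δ → ∀ᶠ n in Filter.atTop,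
      A (φ n) ⊆ thickening δ B ∧ B ⊆ thickening δ (A (φ n))

/-- BUMP: boundary bumping: a nondegenerate continuum contains small nondegenerate subcontinua
through each of its points. -/
def S_BUMP : Prop := ∀ (L : Type) [MetricSpace L] [CompactSpace L] (K G : Set L) (p q : L),
  IsClosed K → IsPreconnected K → p ∈ K → q ∈ K → p ≠ q → IsOpen G → p ∈ G →
  ∃ A : Set L, IsClosed A ∧ IsPreconnected A ∧ p ∈ A ∧ A ⊆ K ∧ A ⊆ G ∧ A ≠ {p}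

/-- CROOK: one crooked step. -/
def S_CROOK : Prop := ∀ (Y : Type) [TopologicalSpace Y] [NormalSpace Y]
  (U V O₁ P₁ O₂ P₂ : Set Y),
  IsOpen U → IsOpen V → Disjoint (closure U) (closure V) →
  IsOpen O₁ → IsOpen P₁ → IsOpen O₂ → IsOpen P₂ →
  closure O₁ ⊆ P₁ → closure O₂ ⊆ P₂ → Disjoint P₁ P₂ →
  ∃ U' V' X₁ X₂ X₃ : Set Y, IsOpen U' ∧ IsOpen V' ∧ U ⊆ U' ∧ V ⊆ V' ∧
    Disjoint (closure U') (closure V') ∧
    IsClosed X₁ ∧ IsClosed X₂ ∧ IsClosed X₃ ∧ Disjoint X₁ X₃ ∧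
    (U' ∪ V')ᶜ ⊆ X₁ ∪ X₂ ∪ X₃ ∧
    closure O₁ ∩ (U' ∪ V')ᶜ ⊆ X₁ ∧ closure O₂ ∩ (U' ∪ V')ᶜ ⊆ X₃ ∧
    X₁ ∩ X₂ ∩ (U' ∪ V')ᶜ ⊆ P₂ ∧ X₂ ∩ X₃ ∩ (U' ∪ V')ᶜ ⊆ P₁

/-- PART: partitions with nested continua, avoiding a countable set. -/
def S_PART : Prop := ∀ (Y : Type) [MetricSpace Y] [CompactSpace Y] (C U₀ V₀ : Set Y),
  C.Countable → IsOpen U₀ → IsOpen V₀ → Disjoint (closure U₀) (closure V₀) →
  ∃ U V : Set Y, IsOpen U ∧ IsOpen V ∧ Disjoint U V ∧ U₀ ⊆ U ∧ V₀ ⊆ V ∧ C ⊆ U ∪ V ∧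
    ∀ A B : Set Y, IsClosed A → IsClosed B → IsPreconnected A → IsPreconnected B →
      A ⊆ (U ∪ V)ᶜ → B ⊆ (U ∪ V)ᶜ → (A ∩ B).Nonempty → A ⊆ B ∨ B ⊆ A

/-- EMB: a separable metric space embeds in a compact metric space. -/
def S_EMB : Prop := ∀ (X : Type) [MetricSpace X] [TopologicalSpace.SeparableSpace X],
  ∃ (Y : Type) (_ : MetricSpace Y) (_ : CompactSpace Y) (e : X → Y), IsEmbedding e

/-- relatively clopen subsets `V` of `T`. -/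
def RC {L : Type} [TopologicalSpace L] (T V : Set L) : Prop :=
  V ⊆ T ∧ T ∩ closure V ⊆ V ∧ Disjoint V (closure (T \ V))

/-- MAIN -/
def S_MAIN : Prop := ∀ (L : Type) [MetricSpace L] [CompactSpace L],
  (∀ A B : Set L, IsClosed A → IsClosed B → IsPreconnected A → IsPreconnected B →
      (A ∩ B).Nonempty → A ⊆ B ∨ B ⊆ A) →
  ∀ T : Set L,
  (∀ p ∈ T, ∀ O : Set L, IsOpen O → p ∈ O → ∃ U : Set L, IsOpen U ∧ p ∈ U ∧
    ∀ t ∈ T, t ∉ O → ∃ V : Set L, RC T V ∧ t ∈ V ∧ Disjoint V U) →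
  ∀ p ∈ T, ∀ O : Set L, IsOpen O → p ∈ O → ∃ V : Set L, RC T V ∧ p ∈ V ∧ V ⊆ O

end Pool.Agent.W651.HI
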