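import Pool.Agent.W651.HI.Fin
import Pool.Agent.W837.HIEmb
import Pool.Agent.W240.HI.Part
import Pool.Agent.W374.HI.Size
import Pool.Agent.W374.HI.Lim
import Pool.Agent.W160.HI.Crook
import Pool.Agent.W160.HI.Bump

set_option autoImplicit false

namespace Pool.Agent.W651.HI

open Set Topology Metric Filter

theorem RC.of_open {L : Type} [TopologicalSpace L] {T G G' : Set L} (hG : IsOpen G)
    (hG' : IsOpen G') (hcov : T ⊆ G ∪ G') (hd : ∀ x ∈ T, x ∈ G → x ∈ G' → False) :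
    RC T (T ∩ G) := by
  refine ⟨inter_subset_left, ?_, ?_⟩
  · rintro x ⟨hxT, hx⟩
    refine ⟨hxT, ?_⟩
    rcases hcov hxT with h | h
    · exact h
    · exfalso
      obtain ⟨y, hy, hyT, hyG⟩ := mem_closure_iff.1 hx G' hG' h
      exact hd y hyT hyG hy
  · rw [Set.disjoint_left]
    rintro x ⟨hxT, hxG⟩ hx
    obtain ⟨y, hy, hyT, hyG⟩ := mem_closure_iff.1 hx G hG hxG
    exact hyG ⟨hyT, hy⟩

theorem nest_sub {Y : Type} [TopologicalSpace Y] {M : Set Y} (hM : IsClosed M)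
    (h : ∀ A B : Set Y, IsClosed A → IsClosed B → IsPreconnected A → IsPreconnected B →
      A ⊆ M → B ⊆ M → (A ∩ B).Nonempty → A ⊆ B ∨ B ⊆ A) : Nest ↥M := by
  intro A B hA hB hAp hBp hAB
  have hcl : IsClosedEmbedding (Subtype.val : ↥M → Y) := hM.isClosedEmbedding_subtypeVal
  have hsub : ∀ A : Set ↥M, Subtype.val '' A ⊆ M := by
    rintro A _ ⟨a, -, rfl⟩
    exact a.2
  obtain ⟨x, hxA, hxB⟩ := hAB
  rcases h (Subtype.val '' A) (Subtype.val '' B) (hcl.isClosedMap _ hA) (hcl.isClosedMap _ hB)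
    (hAp.image _ continuous_subtype_val.continuousOn)
    (hBp.image _ continuous_subtype_val.continuousOn) (hsub A) (hsub B)
    ⟨x, ⟨x, hxA, rfl⟩, ⟨x, hxB, rfl⟩⟩ with h | h
  · exact Or.inl ((image_subset_image_iff Subtype.val_injective).1 h)
  · exact Or.inr ((image_subset_image_iff Subtype.val_injective).1 h)

theorem final (hmain : S_MAIN) (hpart : S_PART) (hemb : S_EMB)
    (X : Type) [MetricSpace X] [TopologicalSpace.SeparableSpace X] (C : Set X)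
    (hC : C.Countable)
    (hB : ∃ B : Set (Set ↥(Cᶜ : Set X)), (∀ U ∈ B, IsClosed U) ∧
      (∀ p : ↥(Cᶜ : Set X), ∀ V ∈ nhds p, ∃ U ∈ B, U ⊆ V ∧ p ∈ interior U) ∧
      (∀ U ∈ B, ∀ W ∈ B, Disjoint U W →
        ∃ F : Set ↥(Cᶜ : Set X), IsClopen F ∧ U ⊆ F ∧ Disjoint F W))
    (x : X) (V : Set X) (hV : IsOpen V) (hxV : x ∈ V) :
      ∃ U : Set X, IsOpen U ∧ x ∈ U ∧ U ⊆ V ∧
        ∀ y : ↥(frontier U), ∀ O : Set ↥(frontier U), IsOpen O → y ∈ O →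
          ∃ W : Set ↥(frontier U), IsClopen W ∧ y ∈ W ∧ W ⊆ O := by
  obtain ⟨ℬ, hℬ1, hℬ2, hℬ3⟩ := hB
  obtain ⟨Y, _, _, e, he⟩ := hemb X
  obtain ⟨G, hG, rfl⟩ := he.isOpen_iff.1 hV
  obtain ⟨W₁, hW₁, hxW₁, hW₁G⟩ := normal_exists_closure_subset
    (isClosed_singleton (x := e x)) hG (by simpa using hxV)
  obtain ⟨W₀, hW₀, hxW₀, hW₀W₁⟩ := normal_exists_closure_subset
    (isClosed_singleton (x := e x)) hW₁ hxW₁
  have hd0 : Disjoint (closure W₀) (closure (closure W₁)ᶜ) := by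
    have h1 : closure (closure W₁)ᶜ ⊆ W₁ᶜ :=
      closure_minimal (compl_subset_compl.2 subset_closure) hW₁.isClosed_compl
    exact Set.disjoint_left.2 fun z hz hz' => h1 hz' (hW₀W₁ hz)
  obtain ⟨U, V', hU, hV', hUV', hW₀U, hWV', hCUV, hnest⟩ := hpart Y (e '' C) W₀ (closure W₁)ᶜ
    (hC.image e) hW₀ isClosed_closure.isOpen_compl hd0
  set M : Set Y := (U ∪ V')ᶜ with hMdef
  have hM : IsClosed M := (hU.union hV').isClosed_compl
  have : CompactSpace ↥M := isCompact_iff_compactSpace.1 hM.isCompact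
  have hfr : ∀ z ∈ frontier (e ⁻¹' U), e z ∈ M := by
    intro z hz hzM
    rw [(hU.preimage he.continuous).frontier_eq] at hz
    rcases hzM with h | h
    · exact hz.2 h
    · obtain ⟨w, hw, hw'⟩ := mem_closure_iff.1 hz.1 (e ⁻¹' V') (hV'.preimage he.continuous) h
      exact Set.disjoint_left.1 hUV' hw' hw
  have hMC : ∀ z, e z ∈ M → z ∈ Cᶜ := by
    intro z hz hzC
    exact hz (hCUV ⟨z, hzC, rfl⟩)
  refine ⟨e ⁻¹' U, hU.preimage he.continuous, hW₀U (hxW₀ (mem_singleton _)), ?_, ?_⟩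
  · intro z hz
    by_contra hzG
    have : e z ∈ V' := hWV' fun h => hzG (hW₁G h)
    exact Set.disjoint_left.1 hUV' hz this
  let g : ↥(frontier (e ⁻¹' U)) → ↥M := fun w => ⟨e w.1, hfr w.1 w.2⟩
  have hg : Continuous g := (he.continuous.comp continuous_subtype_val).subtype_mk _
  set T : Set ↥M := range g with hT
  let i : ↥(Cᶜ : Set X) → Y := fun w => e w.1
  have hi : IsEmbedding i := he.comp IsEmbedding.subtypeVal
  have hAZD : AZD T := by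
    rintro _ ⟨z, rfl⟩ O hO hzO
    obtain ⟨O', hO', rfl⟩ := isOpen_induced_iff.1 hO
    have hzC : z.1 ∈ Cᶜ := hMC _ (g z).2
    obtain ⟨B, hBℬ, hBO, hzB⟩ := hℬ2 ⟨z.1, hzC⟩ (i ⁻¹' O')
      ((hO'.preimage hi.continuous).mem_nhds hzO)
    obtain ⟨U', hU', hU'B⟩ := hi.isOpen_iff.1 (isOpen_interior (s := B))
    refine ⟨Subtype.val ⁻¹' U', hU'.preimage continuous_subtype_val, ?_, ?_⟩
    · have : (⟨z.1, hzC⟩ : ↥(Cᶜ : Set X)) ∈ i ⁻¹' U' := by rw [hU'B]; exact hzB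
      exact this
    · rintro _ ⟨w, rfl⟩ hwO
      have hwC : w.1 ∈ Cᶜ := hMC _ (g w).2
      have hwB : (⟨w.1, hwC⟩ : ↥(Cᶜ : Set X)) ∉ B := fun h => hwO (hBO h)
      obtain ⟨W, hWℬ, hWB, hwW⟩ := hℬ2 ⟨w.1, hwC⟩ Bᶜ ((hℬ1 B hBℬ).isOpen_compl.mem_nhds hwB)
      obtain ⟨F, hF, hWF, hFB⟩ := hℬ3 W hWℬ B hBℬ (Set.disjoint_left.2 fun z hz => hWB hz)
      obtain ⟨F₁, hF₁, hF₁F⟩ := hi.isOpen_iff.1 hF.isOpen
      obtain ⟨F₂, hF₂, hF₂F⟩ := hi.isOpen_iff.1 hF.compl.isOpen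
      have hmem : ∀ v : ↥(frontier (e ⁻¹' U)), ∀ hv : v.1 ∈ Cᶜ,
          ((g v).1 ∈ F₁ ↔ (⟨v.1, hv⟩ : ↥(Cᶜ : Set X)) ∈ F) ∧
          ((g v).1 ∈ F₂ ↔ (⟨v.1, hv⟩ : ↥(Cᶜ : Set X)) ∉ F) := by
        intro v hv
        constructor
        · rw [← hF₁F]; rfl
        · rw [← mem_compl_iff, ← hF₂F]; rfl
      refine ⟨T ∩ Subtype.val ⁻¹' F₁, RC.of_open (hF₁.preimage continuous_subtype_val)
        (hF₂.preimage continuous_subtype_val) ?_ ?_, ⟨⟨w, rfl⟩, ?_⟩, ?_⟩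
      · rintro _ ⟨v, rfl⟩
        have hvC : v.1 ∈ Cᶜ := hMC _ (g v).2
        by_cases h : (⟨v.1, hvC⟩ : ↥(Cᶜ : Set X)) ∈ F
        · exact Or.inl ((hmem v hvC).1.2 h)
        · exact Or.inr ((hmem v hvC).2.2 h)
      · rintro _ ⟨v, rfl⟩ h1 h2
        have hvC : v.1 ∈ Cᶜ := hMC _ (g v).2
        exact (hmem v hvC).2.1 h2 ((hmem v hvC).1.1 h1)
      · exact (hmem w hwC).1.2 (hWF (interior_subset hwW))
      · rw [Set.disjoint_left]
        rintro _ ⟨⟨v, rfl⟩, hvF⟩ hvU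
        have hvC : v.1 ∈ Cᶜ := hMC _ (g v).2
        have h1 : (⟨v.1, hvC⟩ : ↥(Cᶜ : Set X)) ∈ F := (hmem v hvC).1.1 hvF
        have h2 : (⟨v.1, hvC⟩ : ↥(Cᶜ : Set X)) ∈ i ⁻¹' U' := hvU
        rw [hU'B] at h2
        exact Set.disjoint_left.1 hFB h1 (interior_subset h2)
  intro y O hO hyO
  have hj : IsEmbedding (fun w : ↥(frontier (e ⁻¹' U)) => e w.1) :=
    he.comp IsEmbedding.subtypeVal
  obtain ⟨O', hO', rfl⟩ := hj.isOpen_iff.1 hO
  obtain ⟨V₁, hV₁, hyV₁, hV₁O⟩ := hmain ↥M (nest_sub hM hnest) T hAZD (g y) ⟨y, rfl⟩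
    (Subtype.val ⁻¹' O') (hO'.preimage continuous_subtype_val) hyO
  refine ⟨g ⁻¹' V₁, ⟨?_, ?_⟩, hyV₁, fun w hw => hV₁O hw⟩
  · have : g ⁻¹' V₁ = g ⁻¹' (closure V₁) := by
      ext w
      exact ⟨fun h => subset_closure h, fun h => hV₁.2.1 ⟨⟨w, rfl⟩, h⟩⟩
    rw [this]
    exact isClosed_closure.preimage hg
  · have : g ⁻¹' V₁ = g ⁻¹' (closure (T \ V₁))ᶜ := by
      ext w
      refine ⟨fun h h' => Set.disjoint_left.1 hV₁.2.2 h h', fun h => ?_⟩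
      by_contra hw
      exact h (subset_closure ⟨⟨w, rfl⟩, hw⟩)
    rw [this]
    exact isClosed_closure.isOpen_compl.preimage hg

end Pool.Agent.W651.HI
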