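import Pool.Agent.W651.HI.Lim

set_option autoImplicit false

namespace Pool.Agent.W651.HI

open Set Topology Metric Filter

variable {L : Type} [MetricSpace L] [CompactSpace L]

/-- good covers of `T` minus `Tb`. -/
theorem cover {T : Set L} {μ : Set L → ℝ} {b : ℝ} (hlim : S_LIM) (hN : Nest L) (hμ : Size μ)
    (hZ : AZD T) :
    ∃ E : ℕ → Set L, (∀ n, RC T (E n)) ∧ (∀ n m, n ≠ m → Disjoint (E n) (E m)) ∧
      (∀ x ∈ T, x ∉ Tb T μ b → ∃ n, x ∈ E n) ∧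
      ∀ n, (E n).Nonempty → ∃ (t : L) (ε : ℝ), t ∈ T ∧ μ (Q T t) ≤ b ∧ 0 < ε ∧
        (∀ κ ∈ Q T t, ∀ τ ∈ Tb T μ b, 2 * ε ≤ dist κ τ) ∧ E n ⊆ thickening ε (Q T t) := by
  have h1 : ∀ t : L, ∃ (H : Set L) (ε : ℝ), t ∈ T → t ∉ Tb T μ b → 
      RC T H ∧ t ∈ H ∧ 0 < ε ∧ μ (Q T t) ≤ b ∧
        (∀ κ ∈ Q T t, ∀ τ ∈ Tb T μ b, 2 * ε ≤ dist κ τ) ∧ H ⊆ thickening ε (Q T t) := by
    intro t
    by_cases ht : t ∈ T
    · by_cases ht' : t ∈ Tb T μ b
      · exact ⟨∅, 0, fun _ h => absurd ht' h⟩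
      · have hlt : μ (Q T t) < b := by
          by_contra h
          exact ht' ⟨ht, not_lt.1 h⟩
        obtain ⟨δ, hδ, hd⟩ := (F10 hlim hN hμ hZ ht hlt).exists_thickenings
          (Q_closed T t).isCompact isClosed_closure
        obtain ⟨V, hV, htV, hVG⟩ := Q_small ht (G := thickening (δ / 2) (Q T t))
          isOpen_thickening (self_subset_thickening (by linarith) _)
        refine ⟨V, δ / 2, fun _ _ => ⟨hV, htV, by linarith, hlt.le, ?_,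
          subset_closure.trans hVG⟩⟩
        intro κ hκ τ hτ
        by_contra hcon
        have hdd : dist κ τ < δ := by linarith [not_le.1 hcon]
        refine Set.disjoint_left.1 hd (mem_thickening_iff.2 ⟨κ, hκ, ?_⟩)
          (self_subset_thickening hδ _ (subset_closure hτ) : τ ∈ _)
        rwa [dist_comm]
    · exact ⟨∅, 0, fun h => absurd h ht⟩
  choose H ε hH using h1
  -- countable subcover
  obtain ⟨S, hS, hSc, hcov⟩ := TopologicalSpace.countable_cover_nhdsWithin (s := T \ Tb T μ b)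
    (f := H) (by
      rintro x ⟨hxT, hxb⟩
      obtain ⟨hRC, hx, -⟩ := hH x hxT hxb
      obtain ⟨G, hG, hxG, hGV⟩ := hRC.nhd hx
      rw [mem_nhdsWithin]
      exact ⟨G, hG, hxG, fun y hy => hGV ⟨hy.1, hy.2.1⟩⟩)
  rcases S.eq_empty_or_nonempty with hSe | hSn
  · subst hSe
    refine ⟨fun _ => ∅, fun _ => ?_, fun _ _ _ => disjoint_bot_left, ?_, ?_⟩
    · have := (RC.self (T := T)).compl
      rwa [sdiff_self] at this
    · intro x hx hxb
      have := hcov ⟨hx, hxb⟩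
      simp at this
    · rintro n ⟨x, hx⟩
      exact absurd hx (notMem_empty x)
  · obtain ⟨t, ht⟩ := hSc.exists_eq_range hSn
    have htS : ∀ n, t n ∈ T ∧ t n ∉ Tb T μ b := fun n => hS (ht ▸ mem_range_self n)
    have hRC : ∀ n, RC T (H (t n)) := fun n => (hH _ (htS n).1 (htS n).2).1
    refine ⟨disjointed (fun n => H (t n)), ?_, ?_, ?_, ?_⟩
    · intro n
      refine disjointedRec (p := fun A => RC T A) ?_ (hRC n)
      intro A i hA
      exact hA.diff (hRC i)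
    · intro n m hnm
      exact disjoint_disjointed _ hnm
    · intro x hx hxb
      have := hcov ⟨hx, hxb⟩
      rw [ht] at this
      simp only [mem_iUnion, exists_prop, mem_range, exists_exists_eq_and] at this
      have h2 : x ∈ ⋃ n, H (t n) := mem_iUnion.2 this
      rw [← iUnion_disjointed] at h2
      exact mem_iUnion.1 h2
    · intro n _
      obtain ⟨-, -, h3, h4, h5, h6⟩ := hH _ (htS n).1 (htS n).2
      exact ⟨t n, ε (t n), (htS n).1, h4, h3, h5, (disjointed_subset _ n).trans h6⟩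

/-- the main construction. -/
theorem zero (hlim : S_LIM) (hbump : S_BUMP) {μ : Set L → ℝ} (hN : Nest L) (hμ : Size μ)
    {T : Set L} (hZ : AZD T) {p₀ : L} (hp₀ : p₀ ∈ T) : Q T p₀ ⊆ {p₀} := by
  by_contra hne
  have hpos : 0 < μ (Q T p₀) := by
    have := hμ.strict {p₀} (Q T p₀) isClosed_singleton ⟨p₀, rfl⟩
      ⟨fun x hx => by rw [mem_singleton_iff.1 hx]; exact mem_Q T p₀, hne⟩
    rwa [hμ.sing] at this
  obtain ⟨b, hb, hb2⟩ : ∃ b : ℝ, 0 < b ∧ b < μ (Q T p₀) := exists_between hpos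
  have hpb : p₀ ∈ Tb T μ b := ⟨hp₀, hb2.le⟩
  obtain ⟨κ₀, hκ, hκJ⟩ : ∃ κ₀ ∈ Q T p₀, κ₀ ∉ J T μ b p₀ := by
    by_contra hcon
    push Not at hcon
    have h1 := hμ.mono _ _ (show Q T p₀ ⊆ J T μ b p₀ from hcon)
    linarith [J_size (T := T) hμ hN hb.le p₀]
  -- open set `G` around `J p₀` with `κ₀` not in its closure
  obtain ⟨G, hG, hJG, hκG⟩ : ∃ G : Set L, IsOpen G ∧ J T μ b p₀ ⊆ G ∧ κ₀ ∉ closure G := by
    obtain ⟨G, W, hG, hW, hJG, hκW, hd⟩ := normal_separation (J_closed (T := T) (μ := μ)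
      (b := b) p₀) (isClosed_singleton (x := κ₀)) (Set.disjoint_singleton_right.2 hκJ)
    exact ⟨G, hG, hJG, fun h => Set.disjoint_left.1 (hd.closure_left hW) h
      (hκW (mem_singleton κ₀))⟩
  obtain ⟨s, hs, hs'⟩ := USCJ hlim hμ hZ hp₀ hG hJG
  obtain ⟨D, hD, hpD, hDs⟩ := Q_small hpb (G := ball p₀ s) isOpen_ball
    ((F16 hlim hbump hN hμ hZ hb hpb).trans (by
      rintro x rfl
      exact mem_ball_self hs))
  have hDJ : ∀ d ∈ D, J T μ b d ⊆ G := by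
    intro d hd
    exact hs' d (hD.1 hd).1 (mem_ball.1 (hDs (subset_closure hd))) _ (J_closed d) (J_preconn d)
      (mem_J hμ hb.le d) (J_sub d) (J_size hμ hN hb.le d)
  obtain ⟨G₁, G₂, hG₁, hG₂, hDG₁, hDG₂, hd12⟩ := SEP2 hlim hN hμ hZ hb.le hD
  have hDG₁' : ∀ d ∈ D, J T μ b d ⊆ G₁ := fun d hd =>
    (subset_biUnion_of_mem (u := fun d => J T μ b d) hd).trans hDG₁
  have hDG₂' : ∀ d ∈ Tb T μ b \ D, J T μ b d ⊆ G₂ := fun d hd =>
    (subset_biUnion_of_mem (u := fun d => J T μ b d) hd).trans hDG₂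
  obtain ⟨E, hE1, hE2, hE3, hE4⟩ := cover (b := b) hlim hN hμ hZ
  -- no E n meets Tb
  have hE5 : ∀ n, ∀ x ∈ E n, x ∉ Tb T μ b := by
    intro n x hx hxb
    obtain ⟨t, ε, -, -, hε, h1, h2⟩ := hE4 n ⟨x, hx⟩
    obtain ⟨κ, hκ, hκ'⟩ := mem_thickening_iff.1 (h2 hx)
    have := h1 κ hκ x hxb
    rw [dist_comm] at this
    linarith
  have hkey : ∀ x ∈ Tb T μ b, ∀ O : Set L, IsOpen O → J T μ b x ⊆ O →
      ∃ r : ℝ, 0 < r ∧ ∀ n, (E n ∩ ball x r).Nonempty → E n ⊆ O := by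
    intro x hx O hO hJO
    obtain ⟨r, hr, h⟩ := KEY hlim hμ hZ hx hO hJO
    refine ⟨r, hr, fun n hn => ?_⟩
    obtain ⟨t, ε, h1, h2, -, h3, h4⟩ := hE4 n (hn.mono inter_subset_left)
    exact h (E n) t ε h1 h2 h3 h4 hn
  set V : Set L := D ∪ ⋃ n ∈ {n : ℕ | E n ⊆ G₁ ∩ G}, E n with hVdef
  have hmemV : ∀ x, x ∈ V ↔ x ∈ D ∨ ∃ n, E n ⊆ G₁ ∩ G ∧ x ∈ E n := by
    intro x
    simp [hVdef]
  have hVRC : RC T V := by
    refine ⟨?_, ?_, ?_⟩
    · intro x hx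
      rcases (hmemV x).1 hx with h | ⟨n, -, h⟩
      · exact (hD.1 h).1
      · exact (hE1 n).1 h
    · rintro x ⟨hxT, hxV⟩
      by_cases hxb : x ∈ Tb T μ b
      · by_contra hxV'
        have hxD : x ∉ D := fun h => hxV' ((hmemV x).2 (Or.inl h))
        obtain ⟨r, hr, hrE⟩ := hkey x hxb G₂ hG₂ (hDG₂' x ⟨hxb, hxD⟩)
        obtain ⟨W, hW, hxW, hWD⟩ := hD.compl.nhd (x := x) ⟨hxb, hxD⟩
        obtain ⟨v, ⟨hvW, hvr⟩, hvV⟩ := mem_closure_iff.1 hxV (W ∩ ball x r)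
          (hW.inter isOpen_ball) ⟨hxW, mem_ball_self hr⟩
        rcases (hmemV v).1 hvV with h | ⟨n, hn, h⟩
        · exact (hWD ⟨hvW, hD.1 h⟩).2 h
        · exact Set.disjoint_left.1 hd12 (hn h).1 (hrE n ⟨v, h, hvr⟩ h)
      · obtain ⟨m, hm⟩ := hE3 x hxT hxb
        obtain ⟨W, hW, hxW, hWE⟩ := (hE1 m).nhd hm
        obtain ⟨v, hvW, hvV⟩ := mem_closure_iff.1 hxV W hW hxW
        rcases (hmemV v).1 hvV with h | ⟨n, hn, h⟩
        · exact absurd (hD.1 h) (hE5 m v (hWE ⟨hvW, (hD.1 h).1⟩))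
        · have hvm : v ∈ E m := hWE ⟨hvW, (hE1 n).1 h⟩
          have hnm : n = m := by
            by_contra hnm
            exact Set.disjoint_left.1 (hE2 n m hnm) h hvm
          subst hnm
          exact (hmemV x).2 (Or.inr ⟨n, hn, hm⟩)
    · rw [Set.disjoint_left]
      intro x hxV hxc
      rcases (hmemV x).1 hxV with hxD | ⟨n, hn, hxE⟩
      · obtain ⟨r, hr, hrE⟩ := hkey x (hD.1 hxD) (G₁ ∩ G) (hG₁.inter hG)
          (subset_inter (hDG₁' x hxD) (hDJ x hxD))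
        obtain ⟨W, hW, hxW, hWD⟩ := hD.nhd hxD
        obtain ⟨v, ⟨hvW, hvr⟩, hvT, hvV⟩ := mem_closure_iff.1 hxc (W ∩ ball x r)
          (hW.inter isOpen_ball) ⟨hxW, mem_ball_self hr⟩
        by_cases hvb : v ∈ Tb T μ b
        · exact hvV ((hmemV v).2 (Or.inl (hWD ⟨hvW, hvb⟩)))
        · obtain ⟨n, hn⟩ := hE3 v hvT hvb
          exact hvV ((hmemV v).2 (Or.inr ⟨n, hrE n ⟨v, hn, hvr⟩, hn⟩))
      · obtain ⟨W, hW, hxW, hWE⟩ := (hE1 n).nhd hxE
        obtain ⟨v, hvW, hvT, hvV⟩ := mem_closure_iff.1 hxc W hW hxW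
        exact hvV ((hmemV v).2 (Or.inr ⟨n, hn, hWE ⟨hvW, hvT⟩⟩))
  have hVG : V ⊆ G := by
    intro x hx
    rcases (hmemV x).1 hx with h | ⟨n, hn, h⟩
    · exact hDJ x h (mem_J hμ hb.le x)
    · exact (hn h).2
  exact hκG (closure_mono hVG (Q_sub hVRC ((hmemV p₀).2 (Or.inl hpD)) hκ))

/-- MAIN -/
theorem main (hsize : S_SIZE) (hlim : S_LIM) (hbump : S_BUMP) : S_MAIN := by
  intro L _ _ hN T hZ p hp O hO hpO
  obtain ⟨μ, h1, h2, h3, h4⟩ := hsize L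
  have hQ := zero hlim hbump (μ := μ) hN ⟨h1, h2, h3, h4⟩ hZ hp
  obtain ⟨V, hV, hpV, hVO⟩ := Q_small hp hO (hQ.trans (by
    rintro x rfl
    exact hpO))
  exact ⟨V, hV, hpV, subset_closure.trans hVO⟩

end Pool.Agent.W651.HI
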