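import Pool.Agent.W651.HI.RCs

set_option autoImplicit false

namespace Pool.Agent.W651.HI

open Set Topology Metric Filter

variable {L : Type} [MetricSpace L] [CompactSpace L]

theorem lim' (hlim : S_LIM) {T : Set L} (hZ : AZD T) {t : ℕ → L} (ht : ∀ n, t n ∈ T)
    {A : ℕ → Set L} (hAc : ∀ n, IsClosed (A n)) (hAp : ∀ n, IsPreconnected (A n))
    (htA : ∀ n, t n ∈ A n) (hAQ : ∀ n, A n ⊆ Q T (t n)) :
    ∃ (φ : ℕ → ℕ) (B : Set L) (y : L), StrictMono φ ∧ IsClosed B ∧ IsPreconnected B ∧ y ∈ B ∧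
      Tendsto (t ∘ φ) atTop (𝓝 y) ∧
      (∀ δ : ℝ, 0 < δ → ∀ᶠ n in atTop, A (φ n) ⊆ thickening δ B ∧ B ⊆ thickening δ (A (φ n))) ∧
      (∀ p ∈ T, p ≠ y → p ∉ B) ∧ (y ∈ T → B ⊆ Q T y) := by
  obtain ⟨φ₁, B, hφ₁, hBc, -, hBp, hB⟩ := hlim L A hAc (fun n => ⟨t n, htA n⟩) hAp
  obtain ⟨y, -, φ₂, hφ₂, hy⟩ := isCompact_univ.tendsto_subseq (x := t ∘ φ₁) (fun n => mem_univ _)
  have hB' : ∀ δ : ℝ, 0 < δ → ∀ᶠ n in atTop,
      A ((φ₁ ∘ φ₂) n) ⊆ thickening δ B ∧ B ⊆ thickening δ (A ((φ₁ ∘ φ₂) n)) := by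
    intro δ hδ
    exact hφ₂.tendsto_atTop.eventually (hB δ hδ)
  have hy' : Tendsto (t ∘ (φ₁ ∘ φ₂)) atTop (𝓝 y) := hy
  have hyd : ∀ δ : ℝ, 0 < δ → ∀ᶠ n in atTop, dist (t ((φ₁ ∘ φ₂) n)) y < δ := by
    intro δ hδ
    exact (Metric.tendsto_nhds.1 hy') δ hδ
  refine ⟨φ₁ ∘ φ₂, B, y, hφ₁.comp hφ₂, hBc, hBp, ?_, hy', hB', ?_, ?_⟩
  · rw [← hBc.closure_eq, Metric.mem_closure_iff]
    intro ε hε
    obtain ⟨n, hn1, hn2⟩ := ((hB' (ε / 2) (by linarith)).and (hyd (ε / 2) (by linarith))).exists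
    obtain ⟨b, hb, hb'⟩ := mem_thickening_iff.1 (hn1.1 (htA _))
    refine ⟨b, hb, ?_⟩
    calc dist y b ≤ dist y (t ((φ₁ ∘ φ₂) n)) + dist (t ((φ₁ ∘ φ₂) n)) b := dist_triangle _ _ _
      _ < ε := by rw [dist_comm y]; linarith
  · intro p hp hpy hpB
    have hd : 0 < dist p y := dist_pos.2 hpy
    obtain ⟨U, hU, hpU, hUt⟩ := hZ.avoid hp (O := ball p (dist p y / 2)) isOpen_ball
      (mem_ball_self (by linarith))
    obtain ⟨δ, hδ, hδU⟩ := Metric.isOpen_iff.1 hU p hpU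
    obtain ⟨n, hn1, hn2⟩ := ((hB' δ hδ).and (hyd (dist p y / 2) (by linarith))).exists
    have hnot : t ((φ₁ ∘ φ₂) n) ∉ ball p (dist p y / 2) := by
      intro hmem
      rw [mem_ball] at hmem
      have := dist_triangle p (t ((φ₁ ∘ φ₂) n)) y
      rw [dist_comm p (t ((φ₁ ∘ φ₂) n))] at this
      linarith
    obtain ⟨a, ha, ha'⟩ := mem_thickening_iff.1 (hn1.2 hpB)
    refine Set.disjoint_left.1 (hUt _ (ht _) hnot) (hAQ _ ha) (hδU ?_)
    rw [mem_ball, dist_comm]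
    exact ha'
  · intro hyT z hz
    by_contra hzQ
    obtain ⟨δ, hδ, hδQ⟩ := Metric.isOpen_iff.1 (Q_closed T y).isOpen_compl z hzQ
    obtain ⟨N, hN, hyN, hNt⟩ := Q_usc hyT (G := thickening (δ / 2) (Q T y)) isOpen_thickening
      (self_subset_thickening (by linarith) _)
    obtain ⟨r, hr, hrN⟩ := Metric.isOpen_iff.1 hN y hyN
    obtain ⟨n, hn1, hn2⟩ := ((hB' (δ / 2) (by linarith)).and (hyd r hr)).exists
    obtain ⟨a, ha, ha'⟩ := mem_thickening_iff.1 (hn1.2 hz)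
    obtain ⟨q, hq, hq'⟩ := mem_thickening_iff.1 (hNt _ (ht _) (hrN (mem_ball.2 hn2)) (hAQ _ ha))
    refine hδQ (?_ : q ∈ ball z δ) hq
    rw [mem_ball, dist_comm]
    calc dist z q ≤ dist z a + dist a q := dist_triangle _ _ _
      _ < δ := by linarith

/-- the data of a size function -/
structure Size (μ : Set L → ℝ) : Prop where
  mono : ∀ A B : Set L, A ⊆ B → μ A ≤ μ B
  strict : ∀ A B : Set L, IsClosed A → A.Nonempty → A ⊂ B → μ A < μ B
  cont : ∀ ε : ℝ, 0 < ε → ∃ δ : ℝ, 0 < δ ∧ ∀ A B : Set L, A ⊆ thickening δ B → μ A ≤ μ B + ε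
  sing : ∀ x : L, μ {x} = 0

omit [CompactSpace L] in
theorem Size.lim_ge {μ : Set L → ℝ} (hμ : Size μ) {b : ℝ} {A : ℕ → Set L} {B : Set L}
    (hB : ∀ δ : ℝ, 0 < δ → ∀ᶠ n in atTop, A n ⊆ thickening δ B) (hA : ∀ n, b ≤ μ (A n)) :
    b ≤ μ B := by
  refine le_of_forall_pos_le_add fun ε hε => ?_
  obtain ⟨δ, hδ, h⟩ := hμ.cont ε hε
  obtain ⟨n, hn⟩ := (hB δ hδ).exists
  exact (hA n).trans (h _ _ hn)

omit [CompactSpace L] in
theorem Size.lim_le {μ : Set L → ℝ} (hμ : Size μ) {b : ℝ} {A : ℕ → Set L} {B : Set L}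
    (hB : ∀ δ : ℝ, 0 < δ → ∀ᶠ n in atTop, B ⊆ thickening δ (A n)) (hA : ∀ n, μ (A n) ≤ b) :
    μ B ≤ b := by
  refine le_of_forall_pos_le_add fun ε hε => ?_
  obtain ⟨δ, hδ, h⟩ := hμ.cont ε hε
  obtain ⟨n, hn⟩ := (hB δ hδ).exists
  exact (h _ _ hn).trans (by linarith [hA n])

/-- family of small subcontinua of `Q T p` through `p`. -/
def Fam (T : Set L) (μ : Set L → ℝ) (b : ℝ) (p : L) : Set (Set L) :=
  {A | IsClosed A ∧ IsPreconnected A ∧ p ∈ A ∧ A ⊆ Q T p ∧ μ A ≤ b}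

/-- largest subcontinuum of `Q T p` of size at most `b`. -/
def J (T : Set L) (μ : Set L → ℝ) (b : ℝ) (p : L) : Set L := closure (⋃₀ Fam T μ b p)

/-- points with large continua -/
def Tb (T : Set L) (μ : Set L → ℝ) (b : ℝ) : Set L := {t | t ∈ T ∧ b ≤ μ (Q T t)}

section J
variable {T : Set L} {μ : Set L → ℝ} {b : ℝ}

omit [CompactSpace L] in
theorem Tb_sub : Tb T μ b ⊆ T := fun _ h => h.1

omit [CompactSpace L] in
theorem J_closed (p : L) : IsClosed (J T μ b p) := isClosed_closure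

omit [CompactSpace L] in
theorem J_preconn (p : L) : IsPreconnected (J T μ b p) :=
  (isPreconnected_sUnion p _ (fun _ hA => hA.2.2.1) (fun _ hA => hA.2.1)).closure

omit [CompactSpace L] in
theorem sub_J {p : L} {A : Set L} (h1 : IsClosed A) (h2 : IsPreconnected A) (h3 : p ∈ A)
    (h4 : A ⊆ Q T p) (h5 : μ A ≤ b) : A ⊆ J T μ b p :=
  (subset_sUnion_of_mem (show A ∈ Fam T μ b p from ⟨h1, h2, h3, h4, h5⟩)).trans subset_closure

omit [CompactSpace L] in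
theorem sing_mem (hμ : Size μ) (hb : 0 ≤ b) (p : L) : {p} ∈ Fam T μ b p := by
  refine ⟨isClosed_singleton, isPreconnected_singleton, mem_singleton p, ?_, ?_⟩
  · rintro x rfl
    exact mem_Q T _
  · rw [hμ.sing]; exact hb

omit [CompactSpace L] in
theorem mem_J (hμ : Size μ) (hb : 0 ≤ b) (p : L) : p ∈ J T μ b p :=
  subset_closure (mem_sUnion.2 ⟨{p}, sing_mem hμ hb p, mem_singleton p⟩)

omit [CompactSpace L] in
theorem J_sub (p : L) : J T μ b p ⊆ Q T p :=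
  closure_minimal (sUnion_subset fun _ hA => hA.2.2.2.1) (Q_closed T p)

theorem J_size (hμ : Size μ) (hN : Nest L) (hb : 0 ≤ b) (p : L) : μ (J T μ b p) ≤ b := by
  refine le_of_forall_pos_le_add fun ε hε => ?_
  obtain ⟨δ, hδ, h⟩ := hμ.cont ε hε
  have hne : Nonempty (Fam T μ b p) := ⟨⟨{p}, sing_mem hμ hb p⟩⟩
  obtain ⟨A, hA⟩ := (J_closed (T := T) (μ := μ) (b := b) p).isCompact.elim_directed_cover
    (fun A : Fam T μ b p => thickening δ A.1) (fun _ => isOpen_thickening) (by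
      intro z hz
      obtain ⟨a, ha, ha'⟩ := Metric.mem_closure_iff.1 hz δ hδ
      obtain ⟨A, hA, haA⟩ := mem_sUnion.1 ha
      exact mem_iUnion.2 ⟨⟨A, hA⟩, mem_thickening_iff.2 ⟨a, haA, ha'⟩⟩) (by
      rintro ⟨A, hA⟩ ⟨B, hB⟩
      rcases hN A B hA.1 hB.1 hA.2.1 hB.2.1 ⟨p, hA.2.2.1, hB.2.2.1⟩ with h | h
      · exact ⟨⟨B, hB⟩, thickening_subset_of_subset _ h, subset_rfl⟩
      · exact ⟨⟨A, hA⟩, subset_rfl, thickening_subset_of_subset _ h⟩)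
  exact (h _ _ hA).trans (by linarith [A.2.2.2.2.2])

theorem F10 (hlim : S_LIM) (hN : Nest L) (hμ : Size μ) (hZ : AZD T) {t : L} (ht : t ∈ T)
    (htb : μ (Q T t) < b) : Disjoint (Q T t) (closure (Tb T μ b)) := by
  rw [Set.disjoint_left]
  intro y hy hy'
  obtain ⟨p, hp, hpy⟩ := mem_closure_iff_seq_limit.1 hy'
  obtain ⟨φ, B, y', hφ, hBc, hBp, hyB, hty, hB, hB1, hB2⟩ := lim' hlim hZ (t := p)
    (fun n => (hp n).1) (A := fun n => Q T (p n)) (fun n => Q_closed T _)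
    (fun n => Q_preconn (hp n).1) (fun n => mem_Q T _) (fun n => subset_rfl)
  have hyy : y' = y := tendsto_nhds_unique hty (hpy.comp hφ.tendsto_atTop)
  subst hyy
  have hge : b ≤ μ B := hμ.lim_ge (A := fun n => Q T (p (φ n)))
    (fun δ hδ => (hB δ hδ).mono fun n h => h.1) (fun n => (hp _).2)
  have hBQ : B ⊆ Q T t := by
    by_cases hty' : t = y'
    · subst hty'
      exact hB2 ht
    · rcases hN B (Q T t) hBc (Q_closed T t) hBp (Q_preconn ht) ⟨y', hyB, hy⟩ with h | h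
      · exact h
      · exact absurd (h (mem_Q T t)) (hB1 t ht hty')
  linarith [hμ.mono _ _ hBQ]

theorem F9 (hlim : S_LIM) (hN : Nest L) (hμ : Size μ) (hZ : AZD T) {t : L} (ht : t ∈ T)
    (htb : t ∈ closure (Tb T μ b)) : t ∈ Tb T μ b := by
  refine ⟨ht, ?_⟩
  by_contra h
  exact Set.disjoint_left.1 (F10 hlim hN hμ hZ ht (not_le.1 h)) (mem_Q T t) htb

theorem F11 (hlim : S_LIM) (hN : Nest L) (hμ : Size μ) (hZ : AZD T) (hb : 0 ≤ b)
    {p : L} (hpT : p ∈ T) {y : L} (hy : y ∈ J T μ b p) (hy' : y ∈ closure (Tb T μ b)) :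
    y = p := by
  by_contra hne
  obtain ⟨q, hq, hqy⟩ := mem_closure_iff_seq_limit.1 hy'
  obtain ⟨φ, B, y', hφ, hBc, hBp, hyB, hty, hB, hB1, hB2⟩ := lim' hlim hZ (t := q)
    (fun n => (hq n).1) (A := fun n => Q T (q n)) (fun n => Q_closed T _)
    (fun n => Q_preconn (hq n).1) (fun n => mem_Q T _) (fun n => subset_rfl)
  have hyy : y' = y := tendsto_nhds_unique hty (hqy.comp hφ.tendsto_atTop)
  subst hyy
  have hge : b ≤ μ B := hμ.lim_ge (A := fun n => Q T (q (φ n)))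
    (fun δ hδ => (hB δ hδ).mono fun n h => h.1) (fun n => (hq _).2)
  have hpB : p ∉ B := hB1 p hpT (fun h => hne h.symm)
  rcases hN B (J T μ b p) hBc (J_closed p) hBp (J_preconn p) ⟨y', hyB, hy⟩ with h | h
  · have hlt := hμ.strict B (J T μ b p) hBc ⟨y', hyB⟩
      ⟨h, fun h' => hpB (h' (mem_J hμ hb p))⟩
    linarith [J_size (T := T) hμ hN hb p]
  · exact hpB (h (mem_J hμ hb p))

theorem F16 (hlim : S_LIM) (hbump : S_BUMP) (hN : Nest L) (hμ : Size μ) (hZ : AZD T)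
    (hb : 0 < b) {p : L} (hp : p ∈ Tb T μ b) : Q (Tb T μ b) p ⊆ {p} := by
  intro q hq
  by_contra hne
  have hne' : p ≠ q := fun h => hne (by rw [h]; rfl)
  have hcl : Q (Tb T μ b) p ⊆ closure (Tb T μ b) := Q_sub RC.self hp
  have hQQ : Q (Tb T μ b) p ⊆ Q T p := Q_mono Tb_sub hp
  rcases hN (Q (Tb T μ b) p) (J T μ b p) (Q_closed _ _) (J_closed p) (Q_preconn hp) (J_preconn p)
    ⟨p, mem_Q _ _, mem_J hμ hb.le p⟩ with h | h
  · exact hne (F11 hlim hN hμ hZ hb.le hp.1 (h hq) (hcl hq))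
  · obtain ⟨δ, hδ, hδ'⟩ := hμ.cont b hb
    obtain ⟨A, hAc, hAp, hpA, hAK, hAG, hAne⟩ := hbump L (Q (Tb T μ b) p) (ball p δ) p q
      (Q_closed _ _) (Q_preconn hp) (mem_Q _ _) hq hne' isOpen_ball (mem_ball_self hδ)
    have hsz : μ A ≤ b := by
      have := hδ' A {p} (by
        intro x hx
        rw [mem_thickening_iff]
        exact ⟨p, rfl, mem_ball.1 (hAG hx)⟩)
      rw [hμ.sing] at this
      linarith
    apply hAne
    apply Subset.antisymm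
    · intro x hx
      have hxJ : x ∈ J T μ b p := sub_J hAc hAp hpA (hAK.trans hQQ) hsz hx
      exact F11 hlim hN hμ hZ hb.le hp.1 hxJ (hcl (h hxJ))
    · rintro x rfl
      exact hpA

theorem USCJ (hlim : S_LIM) (hμ : Size μ) (hZ : AZD T) {q : L} (hq : q ∈ T)
    {G : Set L} (hG : IsOpen G) (hJG : J T μ b q ⊆ G) :
    ∃ r : ℝ, 0 < r ∧ ∀ t ∈ T, dist t q < r → ∀ A : Set L, IsClosed A → IsPreconnected A →
      t ∈ A → A ⊆ Q T t → μ A ≤ b → A ⊆ G := by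
  by_contra hcon
  push Not at hcon
  choose t htT htq A hAc hAp htA hAQ hAb hAG using fun n : ℕ => hcon (1 / ((n : ℝ) + 1))
    (by positivity)
  obtain ⟨φ, B, y, hφ, hBc, hBp, hyB, hty, hB, hB1, hB2⟩ := lim' hlim hZ htT hAc hAp htA hAQ
  have htq' : Tendsto t atTop (𝓝 q) := by
    rw [tendsto_iff_dist_tendsto_zero]
    exact squeeze_zero (fun n => dist_nonneg) (fun n => (htq n).le)
      tendsto_one_div_add_atTop_nhds_zero_nat
  have hyq : y = q := tendsto_nhds_unique hty (htq'.comp hφ.tendsto_atTop)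
  subst hyq
  have hle : μ B ≤ b := hμ.lim_le (A := fun n => A (φ n))
    (fun δ hδ => (hB δ hδ).mono fun n h => h.2) (fun n => hAb _)
  have hBG : B ⊆ G := (sub_J hBc hBp hyB (hB2 hq) hle).trans hJG
  obtain ⟨δ, hδ, hδG⟩ := hBc.isCompact.exists_thickening_subset_open hG hBG
  obtain ⟨n, hn⟩ := (hB δ hδ).exists
  exact hAG _ (hn.1.trans hδG)

theorem SEP (hlim : S_LIM) (hN : Nest L) (hμ : Size μ) (hZ : AZD T) (hb : 0 ≤ b)
    {D : Set L} (hD : RC (Tb T μ b) D) :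
    Disjoint (closure (⋃ d ∈ D, J T μ b d)) (⋃ d ∈ Tb T μ b \ D, J T μ b d) := by
  rw [Set.disjoint_left]
  intro z hz hz'
  obtain ⟨w, hw, hwz⟩ := mem_closure_iff_seq_limit.1 hz
  simp only [mem_iUnion, exists_prop] at hw hz'
  choose d hd hwd using hw
  obtain ⟨d', hd', hzd'⟩ := hz'
  have hDT : ∀ n, d n ∈ T := fun n => (hD.1 (hd n)).1
  obtain ⟨φ, B, y, hφ, hBc, hBp, hyB, hty, hB, hB1, hB2⟩ := lim' hlim hZ hDT
    (A := fun n => J T μ b (d n)) (fun n => J_closed _) (fun n => J_preconn _)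
    (fun n => mem_J hμ hb _) (fun n => J_sub _)
  have hzB : z ∈ B := by
    rw [← hBc.closure_eq, Metric.mem_closure_iff]
    intro ε hε
    have hwz' : Tendsto (fun n => w (φ n)) atTop (𝓝 z) := hwz.comp hφ.tendsto_atTop
    obtain ⟨n, hn1, hn2⟩ := ((hB (ε / 2) (by linarith)).and
      (Metric.tendsto_nhds.1 hwz' (ε / 2) (by linarith))).exists
    obtain ⟨c, hc, hc'⟩ := mem_thickening_iff.1 (hn1.1 (hwd (φ n)))
    refine ⟨c, hc, ?_⟩
    calc dist z c ≤ dist z (w (φ n)) + dist (w (φ n)) c := dist_triangle _ _ _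
      _ < ε := by rw [dist_comm z]; linarith
  have hycl : y ∈ closure D := mem_closure_of_tendsto hty (Eventually.of_forall fun n => hd _)
  have hne : d' ≠ y := by
    rintro rfl
    exact hd'.2 (hD.2.1 ⟨hd'.1, hycl⟩)
  have hd'B : d' ∉ B := hB1 d' hd'.1.1 hne
  rcases hN B (J T μ b d') hBc (J_closed _) hBp (J_preconn _) ⟨z, hzB, hzd'⟩ with h | h
  · exact hne (F11 hlim hN hμ hZ hb hd'.1.1 (h hyB) (closure_mono hD.1 hycl)).symm
  · exact hd'B (h (mem_J hμ hb _))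

theorem SEP2 (hlim : S_LIM) (hN : Nest L) (hμ : Size μ) (hZ : AZD T) (hb : 0 ≤ b)
    {D : Set L} (hD : RC (Tb T μ b) D) :
    SeparatedNhds (⋃ d ∈ D, J T μ b d) (⋃ d ∈ Tb T μ b \ D, J T μ b d) := by
  have h1 := SEP hlim hN hμ hZ hb hD
  have h2 := SEP hlim hN hμ hZ hb hD.compl
  rw [sdiff_sdiff_cancel_left hD.1] at h2
  rw [separatedNhds_iff_disjoint]
  exact CompletelyNormalSpace.completely_normal h1 h2.symm

/-- the key estimate near a point of `Tb`. -/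
theorem KEY (hlim : S_LIM) (hμ : Size μ) (hZ : AZD T) {x : L} (hx : x ∈ Tb T μ b)
    {G : Set L} (hG : IsOpen G) (hJG : J T μ b x ⊆ G) :
    ∃ r : ℝ, 0 < r ∧ ∀ (H : Set L) (t : L) (ε : ℝ), t ∈ T → μ (Q T t) ≤ b → 
      (∀ κ ∈ Q T t, ∀ τ ∈ Tb T μ b, 2 * ε ≤ dist κ τ) → H ⊆ thickening ε (Q T t) →
      (H ∩ ball x r).Nonempty → H ⊆ G := by
  obtain ⟨δ, hδ, hδG⟩ := (J_closed x).isCompact.exists_thickening_subset_open hG hJG
  obtain ⟨s, hs, hs'⟩ := USCJ hlim hμ hZ hx.1 (G := thickening (δ / 2) (J T μ b x))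
    isOpen_thickening (self_subset_thickening (by linarith) _)
  obtain ⟨U, hU, hxU, hUt⟩ := hZ.avoid hx.1 (O := ball x s) isOpen_ball (mem_ball_self hs)
  obtain ⟨ρ, hρ, hρU⟩ := Metric.isOpen_iff.1 hU x hxU
  refine ⟨min (ρ / 2) (δ / 2), by positivity, ?_⟩
  rintro H t ε ht htb hε hH ⟨x', hx'H, hx'x⟩
  obtain ⟨κ, hκ, hκ'⟩ := mem_thickening_iff.1 (hH hx'H)
  rw [mem_ball] at hx'x
  have h1 := hε κ hκ x hx
  have h2 := dist_triangle κ x' x
  rw [dist_comm κ x'] at h2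
  have h3 : min (ρ / 2) (δ / 2) ≤ ρ / 2 := min_le_left _ _
  have h4 : min (ρ / 2) (δ / 2) ≤ δ / 2 := min_le_right _ _
  have hεr : ε < min (ρ / 2) (δ / 2) := by linarith
  have hκU : κ ∈ U := hρU (by rw [mem_ball]; linarith)
  have htO : t ∈ ball x s := by
    by_contra h
    exact Set.disjoint_left.1 (hUt t ht h) hκ hκU
  have hsub := hs' t ht (mem_ball.1 htO) (Q T t) (Q_closed T t) (Q_preconn ht) (mem_Q T t)
    subset_rfl htb
  intro h hh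
  obtain ⟨κ₁, hκ₁, hd₁⟩ := mem_thickening_iff.1 (hH hh)
  obtain ⟨j, hj, hd₂⟩ := mem_thickening_iff.1 (hsub hκ₁)
  refine hδG (mem_thickening_iff.2 ⟨j, hj, ?_⟩)
  have := dist_triangle h κ₁ j
  linarith

end J

end Pool.Agent.W651.HI
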