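import Pool.Agent.W651.HI.Defs

set_option autoImplicit false

namespace Pool.Agent.W651.HI

open Set Topology Metric Filter

section rc
variable {L : Type} [TopologicalSpace L] {T V W : Set L}

theorem RC.sub (h : RC T V) : V ⊆ T := h.1

theorem RC.compl (h : RC T V) : RC T (T \ V) := by
  obtain ⟨h1, h2, h3⟩ := h
  refine ⟨sdiff_subset, ?_, ?_⟩
  · rintro x ⟨hx, hx'⟩
    exact ⟨hx, fun hV => Set.disjoint_left.1 h3 hV hx'⟩
  · rw [Set.disjoint_left]
    rintro x ⟨hx, hxV⟩ hx'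
    rw [sdiff_sdiff_cancel_left h1] at hx'
    exact hxV (h2 ⟨hx, hx'⟩)

theorem RC.self : RC T T := by
  refine ⟨subset_rfl, inter_subset_left, ?_⟩
  simp

theorem RC.inter (h : RC T V) (h' : RC T W) : RC T (V ∩ W) := by
  obtain ⟨h1, h2, h3⟩ := h
  obtain ⟨k1, k2, k3⟩ := h'
  refine ⟨inter_subset_left.trans h1, ?_, ?_⟩
  · rintro x ⟨hx, hx'⟩
    exact ⟨h2 ⟨hx, closure_mono inter_subset_left hx'⟩,
      k2 ⟨hx, closure_mono inter_subset_right hx'⟩⟩
  · rw [Set.disjoint_left]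
    rintro x ⟨hx, hx'⟩ hxc
    rw [sdiff_inter, closure_union] at hxc
    rcases hxc with hxc | hxc
    · exact Set.disjoint_left.1 h3 hx hxc
    · exact Set.disjoint_left.1 k3 hx' hxc

theorem RC.diff (h : RC T V) (h' : RC T W) : RC T (V \ W) := by
  have := h.inter h'.compl
  have e : V ∩ (T \ W) = V \ W := by
    ext x
    constructor
    · rintro ⟨a, _, b⟩; exact ⟨a, b⟩
    · rintro ⟨a, b⟩; exact ⟨a, h.1 a, b⟩
  rwa [e] at this

theorem RC.restrict {S : Set L} (hS : S ⊆ T) (h : RC T V) : RC S (V ∩ S) := by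
  obtain ⟨h1, h2, h3⟩ := h
  refine ⟨inter_subset_right, ?_, ?_⟩
  · rintro x ⟨hx, hx'⟩
    exact ⟨h2 ⟨hS hx, closure_mono inter_subset_left hx'⟩, hx⟩
  · rw [Set.disjoint_left]
    rintro x ⟨hx, hx'⟩ hxc
    refine Set.disjoint_left.1 h3 hx (closure_mono ?_ hxc)
    rintro y ⟨hy, hy'⟩
    exact ⟨hS hy, fun hyV => hy' ⟨hyV, hy⟩⟩

theorem RC.nhd (h : RC T V) {x : L} (hx : x ∈ V) :
    ∃ G : Set L, IsOpen G ∧ x ∈ G ∧ G ∩ T ⊆ V := by
  refine ⟨(closure (T \ V))ᶜ, isClosed_closure.isOpen_compl,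
    fun hx' => Set.disjoint_left.1 h.2.2 hx hx', ?_⟩
  rintro y ⟨hy, hyT⟩
  by_contra hyV
  exact hy (subset_closure ⟨hyT, hyV⟩)

/-- quasi-component type sets in the closure. -/
def Q (T : Set L) (t : L) : Set L := ⋂ V : {V : Set L // RC T V ∧ t ∈ V}, closure V.1

theorem Q_closed (T : Set L) (t : L) : IsClosed (Q T t) :=
  isClosed_iInter fun _ => isClosed_closure

theorem mem_Q (T : Set L) (t : L) : t ∈ Q T t := by
  rw [Q, mem_iInter]
  rintro ⟨V, hV, hV'⟩
  exact subset_closure hV'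

theorem Q_sub {t : L} (hV : RC T V) (ht : t ∈ V) : Q T t ⊆ closure V :=
  iInter_subset (fun V : {V : Set L // RC T V ∧ t ∈ V} => closure V.1) ⟨V, hV, ht⟩

theorem Q_mono {S : Set L} (hS : S ⊆ T) {t : L} (ht : t ∈ S) : Q S t ⊆ Q T t := by
  intro x hx
  rw [Q, mem_iInter]
  rintro ⟨V, hV, hV'⟩
  exact closure_mono inter_subset_left (Q_sub (hV.restrict hS) ⟨hV', ht⟩ hx)

theorem Q_small [CompactSpace L] {t : L} (ht : t ∈ T) {G : Set L} (hG : IsOpen G)
    (hQ : Q T t ⊆ G) : ∃ V : Set L, RC T V ∧ t ∈ V ∧ closure V ⊆ G := by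
  have : Nonempty {V : Set L // RC T V ∧ t ∈ V} := ⟨⟨T, RC.self, ht⟩⟩
  obtain ⟨⟨V, hV, hV'⟩, h⟩ := exists_subset_nhds_of_compactSpace
    (V := fun V : {V : Set L // RC T V ∧ t ∈ V} => closure V.1) (U := G) (by
      rintro ⟨V, hV, hV'⟩ ⟨W, hW, hW'⟩
      exact ⟨⟨V ∩ W, hV.inter hW, hV', hW'⟩, closure_mono inter_subset_left,
        closure_mono inter_subset_right⟩) (fun _ => isClosed_closure)
    (fun x hx => hG.mem_nhds (hQ hx))
  exact ⟨V, hV, hV', h⟩

theorem Q_preconn [CompactSpace L] [T2Space L] {t : L} (ht : t ∈ T) :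
    IsPreconnected (Q T t) := by
  have key : ∀ u v : Set L, IsClosed u → IsClosed v → Q T t ⊆ u ∪ v → Disjoint u v → t ∈ u →
      Q T t ⊆ u := by
    intro u v hu hv huv hd htu
    obtain ⟨Gu, Gv, hGu, hGv, h1, h2, h3⟩ := normal_separation hu hv hd
    obtain ⟨V, hV, htV, hVG⟩ := Q_small ht (hGu.union hGv)
      (huv.trans (union_subset_union h1 h2))
    have hRC : RC T (V ∩ Gu) := by
      refine ⟨inter_subset_left.trans hV.1, ?_, ?_⟩
      · rintro x ⟨hx, hx'⟩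
        refine ⟨hV.2.1 ⟨hx, closure_mono inter_subset_left hx'⟩, ?_⟩
        rcases hVG (closure_mono inter_subset_left hx') with h | h
        · exact h
        · exfalso
          obtain ⟨y, hy, hy'⟩ := mem_closure_iff.1 hx' Gv hGv h
          exact Set.disjoint_left.1 h3 hy'.2 hy
      · rw [Set.disjoint_left]
        rintro x ⟨hx, hx'⟩ hxc
        have hsub : T \ (V ∩ Gu) ⊆ (T \ V) ∪ Gv := by
          rintro y ⟨hy, hy'⟩
          by_cases hyV : y ∈ V
          · right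
            rcases hVG (subset_closure hyV) with h | h
            · exact absurd ⟨hyV, h⟩ hy'
            · exact h
          · exact Or.inl ⟨hy, hyV⟩
        have := closure_mono hsub hxc
        rw [closure_union] at this
        rcases this with h | h
        · exact Set.disjoint_left.1 hV.2.2 hx h
        · obtain ⟨y, hy, hy'⟩ := mem_closure_iff.1 h Gu hGu hx'
          exact Set.disjoint_left.1 h3 hy hy'
    intro x hx
    rcases huv hx with h | h
    · exact h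
    · exfalso
      have hx' := Q_sub hRC ⟨htV, h1 htu⟩ hx
      obtain ⟨y, hy, hy'⟩ := mem_closure_iff.1 hx' Gv hGv (h2 h)
      exact Set.disjoint_left.1 h3 hy'.2 hy
  rw [isPreconnected_iff_subset_of_fully_disjoint_closed (Q_closed T t)]
  intro u v hu hv huv hd
  rcases huv (mem_Q T t) with h | h
  · exact Or.inl (key u v hu hv huv hd h)
  · exact Or.inr (key v u hv hu (by rwa [union_comm]) hd.symm h)

theorem Q_usc [CompactSpace L] {t : L} (ht : t ∈ T) {G : Set L} (hG : IsOpen G)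
    (hQ : Q T t ⊆ G) : ∃ N : Set L, IsOpen N ∧ t ∈ N ∧ ∀ s ∈ T, s ∈ N → Q T s ⊆ G := by
  obtain ⟨V, hV, htV, hVG⟩ := Q_small ht hG hQ
  obtain ⟨N, hN, htN, hNV⟩ := hV.nhd htV
  exact ⟨N, hN, htN, fun s hs hsN => (Q_sub hV (hNV ⟨hsN, hs⟩)).trans hVG⟩

end rc

/-- almost zero-dimensionality -/
def AZD {L : Type} [TopologicalSpace L] (T : Set L) : Prop :=
  ∀ p ∈ T, ∀ O : Set L, IsOpen O → p ∈ O → ∃ U : Set L, IsOpen U ∧ p ∈ U ∧
    ∀ t ∈ T, t ∉ O → ∃ V : Set L, RC T V ∧ t ∈ V ∧ Disjoint V U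

theorem AZD.avoid {L : Type} [TopologicalSpace L] {T : Set L} (h : AZD T) {p : L} (hp : p ∈ T)
    {O : Set L} (hO : IsOpen O) (hpO : p ∈ O) : ∃ U : Set L, IsOpen U ∧ p ∈ U ∧
      ∀ t ∈ T, t ∉ O → Disjoint (Q T t) U := by
  obtain ⟨U, hU, hpU, h⟩ := h p hp O hO hpO
  refine ⟨U, hU, hpU, fun t ht htO => ?_⟩
  obtain ⟨V, hV, htV, hd⟩ := h t ht htO
  exact (hd.closure_left hU).mono_left (Q_sub hV htV)

/-- nestedness of intersecting continua -/
def Nest (L : Type) [TopologicalSpace L] : Prop :=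
  ∀ A B : Set L, IsClosed A → IsClosed B → IsPreconnected A → IsPreconnected B →
      (A ∩ B).Nonempty → A ⊆ B ∨ B ⊆ A

end Pool.Agent.W651.HI
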